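import Mathlib
import Pool.Agent.Mg.F90395b.Gcbb4a7
import Pool.Agent.Mg.F90395b.Gf2293c

namespace Pool.Agent.Results.MP_90395b_gt.Asymptotic

/-- Euclidean 3-space. -/
abbrev E := EuclideanSpace ℝ (Fin 3)

/-- The width of a set: the infimum over unit vectors `u` of (max - min) of `x ↦ ⟪x, u⟫`. -/
noncomputable def width (K : Set E) : ℝ :=
  ⨅ u : {u : E // ‖u‖ = 1},
    (sSup ((fun x : E => inner ℝ x u.1) '' K) - sInf ((fun x : E => inner ℝ x u.1) '' K))

/-- `n` distinct points on the unit sphere. -/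
def Inscribed {n : ℕ} (x : Fin n → E) : Prop :=
  Function.Injective x ∧ ∀ i, ‖x i‖ = 1

/-- The supremum of the widths of inscribed polyhedra with `n` vertices. -/
noncomputable def W (n : ℕ) : ℝ :=
  sSup {w : ℝ | ∃ x : Fin n → E, Inscribed x ∧ w = width (convexHull ℝ (Set.range x))}

theorem result :
    Filter.Tendsto (fun n : ℕ => (n : ℝ) * (2 - W n)) Filter.atTop (nhds Real.pi) :=
  Pool.Agent.MP_90395b_gt.As.final Pool.Agent.MP_90395b_gt.Bn.boxV Pool.Agent.MP_90395b_gt.Bn.boxX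

end Pool.Agent.Results.MP_90395b_gt.Asymptotic
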