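import Mathlib
import Pool.Agent.Mg.F90395b.Gdef718

namespace Pool.Agent.Results.MP_90395b_gt.WidthFive

open Pool.Agent.MP_90395b_gt.W5

/-- Euclidean 3-space. -/
abbrev E := EuclideanSpace ℝ (Fin 3)

/-- The width of a set: the infimum over unit vectors `u` of (max - min) of `x ↦ ⟪x, u⟫`. -/
noncomputable def width (K : Set E) : ℝ :=
  ⨅ u : {u : E // ‖u‖ = 1},
    (sSup ((fun x : E => inner ℝ x u.1) '' K) - sInf ((fun x : E => inner ℝ x u.1) '' K))

/-- `n` distinct points on the unit sphere. -/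
def Inscribed {n : ℕ} (x : Fin n → E) : Prop :=
  Function.Injective x ∧ ∀ i, ‖x i‖ = 1

/-- The supremum of the widths of inscribed polyhedra with `n` vertices. -/
noncomputable def W (n : ℕ) : ℝ :=
  sSup {w : ℝ | ∃ x : Fin n → E, Inscribed x ∧ w = width (convexHull ℝ (Set.range x))}

/-- Two antipodal vertices and three vertices on the equator at mutual angles of 120 degrees. -/
def RegularBipyramid (x : Fin 5 → E) : Prop :=
  ∃ σ : Equiv.Perm (Fin 5), x (σ 1) = -x (σ 0) ∧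
    inner ℝ (x (σ 0)) (x (σ 2)) = 0 ∧ inner ℝ (x (σ 0)) (x (σ 3)) = 0 ∧
    inner ℝ (x (σ 0)) (x (σ 4)) = 0 ∧ inner ℝ (x (σ 2)) (x (σ 3)) = -1 / 2 ∧
    inner ℝ (x (σ 2)) (x (σ 4)) = -1 / 2 ∧ inner ℝ (x (σ 3)) (x (σ 4)) = -1 / 2

lemma inner_ip (a b : E) : inner ℝ a b = ip a.ofLp b.ofLp := by
  simp [PiLp.inner_apply, Fin.sum_univ_three, ip]; ring

lemma hull_bound (x : Fin 5 → E) (u : E) (lo hi : ℝ)
    (h : ∀ i, lo ≤ inner ℝ (x i) u ∧ inner ℝ (x i) u ≤ hi) :
    ∀ r ∈ (fun y : E => inner ℝ y u) '' convexHull ℝ (Set.range x), lo ≤ r ∧ r ≤ hi := by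
  rintro r ⟨y, hy, rfl⟩
  have hc : Convex ℝ {y : E | lo ≤ inner ℝ y u ∧ inner ℝ y u ≤ hi} := by
    intro a ha b hb s t hs ht hst
    simp only [Set.mem_ofPred_eq, inner_add_left, real_inner_smul_left] at ha hb ⊢
    have e1 : lo = s * lo + t * lo := by rw [← add_mul, hst, one_mul]
    have e2 : hi = s * hi + t * hi := by rw [← add_mul, hst, one_mul]
    constructor
    · linarith [mul_le_mul_of_nonneg_left ha.1 hs, mul_le_mul_of_nonneg_left hb.1 ht]
    · linarith [mul_le_mul_of_nonneg_left ha.2 hs, mul_le_mul_of_nonneg_left hb.2 ht]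
  exact convexHull_min (by rintro _ ⟨i, rfl⟩; exact h i) hc hy

lemma vert_bound (x : Fin 5 → E) (hn : ∀ i, ‖x i‖ = 1) (u : E) (i : Fin 5) :
    sInf ((fun y : E => inner ℝ y u) '' convexHull ℝ (Set.range x)) ≤ inner ℝ (x i) u ∧
    inner ℝ (x i) u ≤ sSup ((fun y : E => inner ℝ y u) '' convexHull ℝ (Set.range x)) := by
  have hb := hull_bound x u (-‖u‖) ‖u‖ (fun j => by
    have := abs_real_inner_le_norm (x j) u
    rw [hn j, one_mul] at this
    exact abs_le.mp this)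
  have hm : inner ℝ (x i) u ∈ (fun y : E => inner ℝ y u) '' convexHull ℝ (Set.range x) :=
    ⟨x i, subset_convexHull ℝ _ ⟨i, rfl⟩, rfl⟩
  exact ⟨csInf_le ⟨-‖u‖, fun r hr => (hb r hr).1⟩ hm, le_csSup ⟨‖u‖, fun r hr => (hb r hr).2⟩ hm⟩

lemma width_le (x : Fin 5 → E) (hn : ∀ i, ‖x i‖ = 1) (u : E) (hu : ‖u‖ = 1) (lo hi : ℝ)
    (h : ∀ i, lo ≤ inner ℝ (x i) u ∧ inner ℝ (x i) u ≤ hi) :
    width (convexHull ℝ (Set.range x)) ≤ hi - lo := by
  have hb := hull_bound x u lo hi h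
  have hne : ((fun y : E => inner ℝ y u) '' convexHull ℝ (Set.range x)).Nonempty :=
    ⟨_, x 0, subset_convexHull ℝ _ ⟨0, rfl⟩, rfl⟩
  refine le_trans (ciInf_le ⟨0, ?_⟩ ⟨u, hu⟩) ?_
  · rintro _ ⟨v, rfl⟩
    have := vert_bound x hn v.1 0
    simp only
    linarith [this.1, this.2]
  · have h1 := csSup_le hne (fun r hr => (hb r hr).2)
    have h2 := le_csInf hne (fun r hr => (hb r hr).1)
    simp only
    linarith

lemma c_sq : (2 * √(3 / 7 : ℝ)) ^ 2 = 12 / 7 := by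
  rw [mul_pow, Real.sq_sqrt (by norm_num)]; norm_num

lemma c_pos : 0 < 2 * √(3 / 7 : ℝ) := by positivity

lemma ip_one (a : E) (h : ‖a‖ = 1) : ip a.ofLp a.ofLp = 1 := by
  rw [← inner_ip, real_inner_self_eq_norm_sq, h]; norm_num

lemma upper (x : Fin 5 → E) (hx : Inscribed x) :
    width (convexHull ℝ (Set.range x)) ≤ 2 * √(3 / 7 : ℝ) ∧
    (width (convexHull ℝ (Set.range x)) = 2 * √(3 / 7 : ℝ) → RegularBipyramid x) := by
  obtain ⟨w, hw⟩ : ∃ w, w = width (convexHull ℝ (Set.range x)) := ⟨_, rfl⟩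
  rw [← hw]
  by_cases hw0 : w ≤ 0
  · exact ⟨by linarith [c_pos], fun h => by linarith [c_pos]⟩
  push Not at hw0
  have key := five (fun i => (x i).ofLp)
    (fun a b h => hx.1 (WithLp.ofLp_injective 2 h)) (fun i => ip_one _ (hx.2 i)) (1 / w ^ 2) (by
      intro u c h
      obtain ⟨v, hv⟩ : ∃ v : E, v.ofLp = u := ⟨WithLp.toLp 2 u, rfl⟩
      subst hv
      rw [← inner_ip, real_inner_self_eq_norm_sq]
      by_cases hv0 : v = 0
      · rw [hv0]; simp; positivity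
      have hvp : 0 < ‖v‖ := norm_pos_iff.mpr hv0
      have h1 := width_le x hx.2 (‖v‖⁻¹ • v) (norm_smul_inv_norm hv0) (‖v‖⁻¹ * c)
        (‖v‖⁻¹ * (c + 1)) (fun i => by
          have := h i
          rw [ip_comm, ← inner_ip] at this
          rw [real_inner_smul_right]
          exact ⟨mul_le_mul_of_nonneg_left this.1 (by positivity),
            mul_le_mul_of_nonneg_left this.2 (by positivity)⟩)
      rw [← hw] at h1
      have h2 : w * ‖v‖ ≤ 1 := by
        have : ‖v‖⁻¹ * (c + 1) - ‖v‖⁻¹ * c = 1 / ‖v‖ := by field_simp; ring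
        rw [this, le_div_iff₀ hvp] at h1; exact h1
      rw [le_div_iff₀ (by positivity), ← mul_pow, mul_comm]
      exact pow_le_one₀ (by positivity) h2)
  constructor
  · have h1 := key.1
    rw [le_div_iff₀ (by positivity)] at h1
    exact (abs_le_of_sq_le_sq' (by rw [c_sq]; linarith) c_pos.le).2
  · intro h
    obtain ⟨σ, k0, k⟩ := key.2 (by rw [h, c_sq]; norm_num)
    refine ⟨σ, WithLp.ofLp_injective 2 (by simpa using k0), ?_⟩
    simp only [inner_ip]
    exact k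

lemma lower (x : Fin 5 → E) (hn : ∀ i, ‖x i‖ = 1) (hr : RegularBipyramid x) :
    2 * √(3 / 7 : ℝ) ≤ width (convexHull ℝ (Set.range x)) := by
  obtain ⟨σ, k0, k1, k2, -, k4, k5, k6⟩ := hr
  have : Nonempty {u : E // ‖u‖ = 1} := ⟨⟨x 0, hn 0⟩⟩
  refine le_ciInf fun u => ?_
  have hv := vert_bound x hn u.1
  simp only [inner_ip] at k1 k2 k4 k5 k6
  have e : ∀ i, inner ℝ (x i) u.1 = ip u.1.ofLp (x i).ofLp := fun i => by
    rw [inner_ip, ip_comm]
  have h1 := hv (σ 1)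
  rw [k0, inner_neg_left, e] at h1
  have := reg_bound (x (σ 0)).ofLp (x (σ 2)).ofLp (x (σ 3)).ofLp (x (σ 4)).ofLp u.1.ofLp _ _
    (ip_one _ (hn _)) (ip_one _ (hn _)) (ip_one _ (hn _)) (ip_one _ (hn _)) k1 k2 k4 k5 k6
    (by rw [← e]; exact hv _) h1 (by rw [← e]; exact hv _) (by rw [← e]; exact hv _)
    (by rw [← e]; exact hv _)
  rw [ip_one _ u.2] at this
  refine (abs_le_of_sq_le_sq' (by rw [c_sq]; linarith) ?_).2
  linarith [h1.1, h1.2]

noncomputable def std : Fin 5 → E :=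
  ![!₂[0, 0, 1], !₂[0, 0, -1], !₂[1, 0, 0], !₂[-1 / 2, √3 / 2, 0], !₂[-1 / 2, -(√3 / 2), 0]]

lemma std_ip (i j : Fin 5) : inner ℝ (std i) (std j) =
    !![1, -1, 0, 0, 0; -1, 1, 0, 0, 0; 0, 0, 1, -1 / 2, -1 / 2; 0, 0, -1 / 2, 1, -1 / 2;
      0, 0, -1 / 2, -1 / 2, (1 : ℝ)] i j := by
  have h3 : √3 * √3 = 3 := Real.mul_self_sqrt (by norm_num)
  rw [inner_ip]
  fin_cases i <;> fin_cases j <;> simp [std, ip] <;> linarith

lemma std_ins : Inscribed std := by
  constructor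
  · intro i j h
    have h1 := std_ip i j
    have h2 := std_ip j j
    rw [h, h2] at h1
    fin_cases i <;> fin_cases j <;> first | rfl | (simp at h1; try norm_num at h1)
  · intro i
    have h1 := std_ip i i
    rw [real_inner_self_eq_norm_sq] at h1
    have h2 : ‖std i‖ ^ 2 = 1 := by rw [h1]; fin_cases i <;> simp
    exact (pow_eq_one_iff_of_nonneg (norm_nonneg _) two_ne_zero).mp h2

lemma std_reg : RegularBipyramid std := by
  refine ⟨1, ?_, ?_⟩
  · ext i; fin_cases i <;> simp [std]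
  · simp only [Equiv.Perm.one_apply, std_ip]; simp

theorem result : W 5 = 2 * √(3 / 7 : ℝ) ∧
    ∀ x : Fin 5 → E, Inscribed x →
      (width (convexHull ℝ (Set.range x)) = W 5 ↔ RegularBipyramid x) := by
  have hW : W 5 = 2 * √(3 / 7 : ℝ) := by
    apply IsGreatest.csSup_eq
    constructor
    · exact ⟨std, std_ins, le_antisymm (lower std std_ins.2 std_reg) (upper std std_ins).1⟩
    · rintro w ⟨x, hx, rfl⟩
      exact (upper x hx).1
  refine ⟨hW, fun x hx => ?_⟩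
  rw [hW]
  exact ⟨(upper x hx).2, fun hr => le_antisymm (upper x hx).1 (lower x hx.2 hr)⟩

end Pool.Agent.Results.MP_90395b_gt.WidthFive
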